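import Mathlib

/-!
# The centraliser of a perfect group with centre in an integral
-/

set_option autoImplicit false

open scoped commutatorElement

namespace Pool.Agent.K7.H86.PD

section

variable {D : Type} [Group D]

/-- The power formula in a group of class two. -/
theorem pow_formula {x y w z : D} (hxy : y * x = x * y * z) (hz : ∀ g : D, z * g = g * z)
    (hw : ∀ g : D, w * g = g * w) (n : ℕ) :
    (x * y * w) ^ n = x ^ n * y ^ n * w ^ n * z ^ (n.choose 2) := by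
  have hyx : ∀ m : ℕ, y ^ m * x = x * y ^ m * z ^ m := by
    intro m
    induction m with
    | zero => simp
    | succ m ih =>
      have hzm : z ^ m * y = y * z ^ m := by
        have : Commute z y := hz y
        exact (this.pow_left m).eq
      calc y ^ (m + 1) * x = y ^ m * (y * x) := by rw [pow_succ, mul_assoc]
        _ = (y ^ m * x) * y * z := by rw [hxy]; group
        _ = x * y ^ m * (z ^ m * y) * z := by rw [ih]; group
        _ = x * (y ^ m * y) * (z ^ m * z) := by rw [hzm]; group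
        _ = x * y ^ (m + 1) * z ^ (m + 1) := by rw [← pow_succ, ← pow_succ]
  induction n with
  | zero => simp
  | succ n ih =>
    have h1 : Commute (z ^ (n.choose 2)) (x * y * w) :=
      (show Commute z (x * y * w) from hz _).pow_left _
    have h2 : Commute (w ^ n) (x * y) := (show Commute w (x * y) from hw _).pow_left _
    have h3 : Commute (z ^ n) y := (show Commute z y from hz _).pow_left _
    have h4 : Commute (z ^ n) (w ^ n * w) := (show Commute z (w ^ n * w) from hz _).pow_left _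
    have h5 : (n + 1).choose 2 = n + n.choose 2 := by
      rw [Nat.choose_succ_succ' n 1, Nat.choose_one_right]
    calc (x * y * w) ^ (n + 1) = x ^ n * y ^ n * w ^ n * (z ^ (n.choose 2) * (x * y * w)) := by
          rw [pow_succ, ih]; group
      _ = x ^ n * y ^ n * (w ^ n * (x * y)) * w * z ^ (n.choose 2) := by rw [h1.eq]; group
      _ = x ^ n * (y ^ n * x) * y * (w ^ n * w) * z ^ (n.choose 2) := by rw [h2.eq]; group
      _ = x ^ n * x * y ^ n * (z ^ n * y) * (w ^ n * w) * z ^ (n.choose 2) := by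
          rw [hyx]; group
      _ = x ^ n * x * (y ^ n * y) * (z ^ n * (w ^ n * w)) * z ^ (n.choose 2) := by
          rw [h3.eq]; group
      _ = (x ^ n * x) * (y ^ n * y) * (w ^ n * w) * (z ^ n * z ^ (n.choose 2)) := by
          rw [h4.eq]; group
      _ = x ^ (n + 1) * y ^ (n + 1) * w ^ (n + 1) * z ^ ((n + 1).choose 2) := by
          rw [← pow_succ, ← pow_succ, ← pow_succ, ← pow_add, h5]

/-- **The obstruction.** -/
theorem obstruction (Z : Subgroup D) (hZ : ∀ w ∈ Z, ∀ x : D, w * x = x * w) {c s z : D}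
    {p q r : ℕ} (hp : p.Prime) (hq0 : 0 < q) (hzZ : z ∈ Z) (hq : ∀ w ∈ Z, w ^ q = 1)
    (hcs : c * s = s * c * z) (hs : s ^ (2 * q) = z) (hc : c ^ ((2 * q) * (2 * q) ^ 2) = 1)
    (hS : ∀ x : D, ∃ k l : ℤ, ∃ w ∈ Z, x * s * x⁻¹ = c ^ k * s ^ l * w)
    (hC : ∀ x : D, ∃ i j : ℤ, ∃ w ∈ Z, x * c * x⁻¹ = c ^ i * s ^ j * w)
    (h4 : ∀ a : ℤ, c ^ a ∈ Z → (((2 * q) * (2 * q) ^ 2 : ℕ) : ℤ) ∣ a)
    (hzp : ∀ w ∈ Z, z ≠ w ^ p) (hzr : z ^ (p ^ r) = 1)
    (h5 : ∃ w ∈ Z, c * w ∈ commutator D) : False := by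
  have hzc : ∀ g : D, z * g = g * z := hZ z hzZ
  have hzq : z ^ q = 1 := hq z hzZ
  -- commutation of powers
  have hcz : Commute c z := (hzc c).symm
  have hsz : Commute s z := (hzc s).symm
  have hsc : s * c = c * s * z⁻¹ := by
    rw [hcs, mul_inv_cancel_right]
  have hconj : ∀ k : ℤ, s * c ^ k * s⁻¹ = c ^ k * z ^ (-k) := by
    intro k
    have h1 : s * c * s⁻¹ = c * z⁻¹ := by
      rw [hsc, mul_assoc, mul_assoc, ← mul_assoc s, hsz.inv_right.eq, mul_assoc, mul_inv_cancel,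
        mul_one]
    rw [← conj_zpow, h1, (hcz.inv_right).mul_zpow, inv_zpow, zpow_neg]
  have hgen : ∀ k l : ℤ, s ^ l * c ^ k = c ^ k * s ^ l * z ^ (-(k * l)) := by
    intro k l
    have h1 : (c ^ k)⁻¹ * s * c ^ k = s * z ^ (-k) := by
      have h2 := hconj k
      have h3 : s * c ^ k = c ^ k * z ^ (-k) * s := by rw [← h2]; group
      have h6 : Commute (z ^ (-k)) s := (hsz.symm).zpow_left _
      rw [mul_assoc, h3, mul_assoc, h6.eq]
      group
    have h2 : (c ^ k)⁻¹ * s ^ l * c ^ k = (s * z ^ (-k)) ^ l := by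
      have := conj_zpow (a := (c ^ k)⁻¹) (b := s) (i := l)
      rw [inv_inv] at this
      rw [← this, h1]
    have h3 : Commute s (z ^ (-k)) := hsz.zpow_right _
    rw [h3.mul_zpow, ← zpow_mul] at h2
    have h6 : s ^ l * c ^ k = c ^ k * (s ^ l * z ^ (-k * l)) := by rw [← h2]; group
    rw [h6, ← mul_assoc]
    congr 2
    ring
  have hform : ∀ (k l : ℤ) (w : D), w ∈ Z → ∀ n : ℕ, q ∣ n → q ∣ n.choose 2 →
      (c ^ k * s ^ l * w) ^ n = c ^ (k * n) * s ^ (l * n) := by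
    intro k l w hw n hn hn2
    have h1 := pow_formula (hgen k l)
      (fun g => ((show Commute z g from hzc g).zpow_left _).eq) (hZ w hw) n
    obtain ⟨u, rfl⟩ := hn
    obtain ⟨v, hv⟩ := hn2
    rw [h1, hv, pow_mul w, hq w hw, one_pow, mul_one, ← zpow_natCast (z ^ (-(k * l))), ← zpow_mul,
      mul_comm (-(k * l)), zpow_mul, zpow_natCast, pow_mul z, hzq, one_pow, one_zpow, mul_one,
      ← zpow_natCast, ← zpow_mul, ← zpow_natCast, ← zpow_mul]
  have hM0 : (((2 * q) ^ 2 : ℕ) : ℤ) ≠ 0 := by positivity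
  have hN0 : ((2 * q : ℕ) : ℤ) ≠ 0 := by positivity
  have hchN : q ∣ (2 * q).choose 2 := by
    refine ⟨2 * q - 1, ?_⟩
    rw [Nat.choose_two_right]
    apply Nat.div_eq_of_eq_mul_left (by norm_num)
    ring
  have hchM : q ∣ ((2 * q) ^ 2).choose 2 := by
    refine ⟨(2 * q) * ((2 * q) ^ 2 - 1), ?_⟩
    rw [Nat.choose_two_right]
    apply Nat.div_eq_of_eq_mul_left (by norm_num)
    ring
  have hz1 : z ≠ 1 := fun h => hzp 1 Z.one_mem (by rw [h, one_pow])
  set t : D := c ^ ((2 * q) ^ 2) with ht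
  have htpow : ∀ k : ℤ, t ^ k = c ^ ((((2 * q) ^ 2 : ℕ) : ℤ) * k) := by
    intro k
    rw [ht, ← zpow_natCast, ← zpow_mul]
  -- conjugates of `s`
  have hs' : ∀ x : D, ∃ a l : ℤ, ∃ w ∈ Z, (p : ℤ) ∣ l - 1 ∧ x * s * x⁻¹ = t ^ a * s ^ l * w := by
    intro x
    obtain ⟨k, l, w, hw, hx⟩ := hS x
    have h1 : (x * s * x⁻¹) ^ (2 * q) = z := by
      rw [conj_pow, hs, ← hzc x, mul_inv_cancel_right]
    rw [hx, hform k l w hw (2 * q) ⟨2, mul_comm _ _⟩ hchN] at h1
    have h2 : s ^ (l * ((2 * q : ℕ) : ℤ)) = z ^ l := by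
      rw [mul_comm, zpow_mul, zpow_natCast, hs]
    rw [h2] at h1
    have h3 : c ^ (k * ((2 * q : ℕ) : ℤ)) ∈ Z := by
      have : c ^ (k * ((2 * q : ℕ) : ℤ)) = z * (z ^ l)⁻¹ := by
        rw [eq_mul_inv_iff_mul_eq]
        exact h1
      rw [this]
      exact Z.mul_mem hzZ (Z.inv_mem (Z.zpow_mem hzZ l))
    obtain ⟨v, hv⟩ := h4 _ h3
    have h4' : k = (((2 * q) ^ 2 : ℕ) : ℤ) * v := by
      apply mul_right_cancel₀ hN0
      rw [hv]
      push_cast
      ring
    have h5' : c ^ (k * ((2 * q : ℕ) : ℤ)) = 1 := by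
      rw [hv, zpow_mul, zpow_natCast, hc, one_zpow]
    rw [h5', one_mul] at h1
    have h6 : z ^ (l - 1) = 1 := by rw [zpow_sub, h1, zpow_one, mul_inv_cancel]
    refine ⟨v, l, w, hw, ?_, ?_⟩
    · obtain ⟨i, -, hi⟩ := (Nat.dvd_prime_pow hp).1 (orderOf_dvd_of_pow_eq_one hzr)
      have hi0 : i ≠ 0 := by
        rintro rfl
        rw [pow_zero, orderOf_eq_one_iff] at hi
        exact hz1 hi
      have h7 : ((orderOf z : ℕ) : ℤ) ∣ l - 1 := orderOf_dvd_iff_zpow_eq_one.2 h6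
      rw [hi] at h7
      exact dvd_trans (by exact_mod_cast dvd_pow_self p hi0) h7
    · rw [hx, h4', htpow]
  have ht' : ∀ x : D, ∃ i : ℤ, x * t * x⁻¹ = t ^ i := by
    intro x
    obtain ⟨i, j, w, hw, hx⟩ := hC x
    refine ⟨i, ?_⟩
    rw [ht, ← conj_pow, hx, hform i j w hw ((2 * q) ^ 2) ⟨4 * q, by ring⟩ hchM, ← ht, htpow]
    have h1 : s ^ (j * (((2 * q) ^ 2 : ℕ) : ℤ)) = 1 := by
      have : (j * (((2 * q) ^ 2 : ℕ) : ℤ)) = ((2 * q : ℕ) : ℤ) * ((q : ℤ) * (2 * j)) := by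
        push_cast
        ring
      rw [this, zpow_mul, zpow_natCast, hs, zpow_mul, zpow_natCast, hzq, one_zpow]
    rw [h1, mul_one, mul_comm]
  -- the normal subgroup
  let P : Subgroup D :=
    { carrier := {h | ∃ a : ℤ, ∃ w ∈ Z, h = t ^ a * w ^ p}
      one_mem' := ⟨0, 1, Z.one_mem, by simp⟩
      mul_mem' := by
        rintro _ _ ⟨a, w, hw, rfl⟩ ⟨b, v, hv, rfl⟩
        refine ⟨a + b, w * v, Z.mul_mem hw hv, ?_⟩
        have h1 : Commute w v := hZ w hw v
        have h2 : Commute (w ^ p) (t ^ b) := (show Commute w (t ^ b) from hZ w hw _).pow_left _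
        rw [h1.mul_pow, zpow_add]
        calc t ^ a * w ^ p * (t ^ b * v ^ p) = t ^ a * (w ^ p * t ^ b) * v ^ p := by group
          _ = t ^ a * t ^ b * (w ^ p * v ^ p) := by rw [h2.eq]; group
      inv_mem' := by
        rintro _ ⟨a, w, hw, rfl⟩
        refine ⟨-a, w⁻¹, Z.inv_mem hw, ?_⟩
        have h2 : Commute (w ^ p) (t ^ a) := (show Commute w (t ^ a) from hZ w hw _).pow_left _
        rw [mul_inv_rev, ← mul_inv_rev, ← h2.eq, mul_inv_rev, inv_pow, zpow_neg] }
  have hPn : P.Normal := by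
    constructor
    rintro _ ⟨a, w, hw, rfl⟩ x
    obtain ⟨i, hi⟩ := ht' x
    refine ⟨i * a, w, hw, ?_⟩
    have h2 : Commute (w ^ p) x⁻¹ := (show Commute w x⁻¹ from hZ w hw _).pow_left _
    calc x * (t ^ a * w ^ p) * x⁻¹ = x * t ^ a * (w ^ p * x⁻¹) := by group
      _ = (x * t ^ a * x⁻¹) * w ^ p := by rw [h2.eq]; group
      _ = t ^ (i * a) * w ^ p := by rw [← conj_zpow, hi, ← zpow_mul]
  -- the quotient
  let π : D →* D ⧸ P := QuotientGroup.mk' P
  have hπt : ∀ a : ℤ, π (t ^ a) = 1 := by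
    intro a
    rw [← MonoidHom.mem_ker, QuotientGroup.ker_mk']
    exact ⟨a, 1, Z.one_mem, by simp⟩
  have hπw : ∀ w ∈ Z, π w ^ p = 1 := by
    intro w hw
    rw [← map_pow, ← MonoidHom.mem_ker, QuotientGroup.ker_mk']
    exact ⟨0, w, hw, by simp⟩
  have hπZ : ∀ w ∈ Z, ∀ g : D ⧸ P, Commute (π w) g := by
    intro w hw g
    obtain ⟨g, rfl⟩ := QuotientGroup.mk'_surjective P g
    change π w * π g = π g * π w
    rw [← map_mul, ← map_mul, hZ w hw]
  have hact : ∀ x : D, ∃ l : ℤ, ∃ w ∈ Z, (p : ℤ) ∣ l - 1 ∧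
      π x * π s * (π x)⁻¹ = π s ^ l * π w := by
    intro x
    obtain ⟨a, l, w, hw, hl, hx⟩ := hs' x
    refine ⟨l, w, hw, hl, ?_⟩
    rw [← map_inv, ← map_mul, ← map_mul, hx, map_mul, map_mul, hπt, one_mul, map_zpow]
  have hcomm : ∀ x y : D, π (x * y) * π s * (π (x * y))⁻¹ = π (y * x) * π s * (π (y * x))⁻¹ := by
    have h1 : ∀ x y : D, ∀ (l m : ℤ) (w v : D), w ∈ Z → v ∈ Z → (p : ℤ) ∣ l - 1 →
        (p : ℤ) ∣ m - 1 → π x * π s * (π x)⁻¹ = π s ^ l * π w →
        π y * π s * (π y)⁻¹ = π s ^ m * π v →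
        π (x * y) * π s * (π (x * y))⁻¹ = π s ^ (l * m) * (π w * π v) := by
      intro x y l m w v hw hv _ hm hx hy
      obtain ⟨u, hu⟩ := hm
      have hwm : π w ^ m = π w := by
        have : m = 1 + p * u := by linarith
        rw [this, zpow_add, zpow_one, zpow_mul, zpow_natCast, hπw w hw, one_zpow, mul_one]
      have hcw : Commute (π s ^ l) (π w) := (hπZ w hw _).symm
      have hxv : Commute (π v) (π x)⁻¹ := hπZ v hv _
      calc π (x * y) * π s * (π (x * y))⁻¹ = π x * (π y * π s * (π y)⁻¹) * (π x)⁻¹ := by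
            rw [map_mul]; group
        _ = π x * π s ^ m * (π v * (π x)⁻¹) := by rw [hy]; group
        _ = (π x * π s ^ m * (π x)⁻¹) * π v := by rw [hxv.eq]; group
        _ = (π x * π s * (π x)⁻¹) ^ m * π v := by rw [conj_zpow]
        _ = π s ^ (l * m) * (π w * π v) := by
            rw [hx, hcw.mul_zpow, hwm, ← zpow_mul, mul_assoc]
    intro x y
    obtain ⟨l, w, hw, hl, hx⟩ := hact x
    obtain ⟨m, v, hv, hm, hy⟩ := hact y
    rw [h1 x y l m w v hw hv hl hm hx hy, h1 y x m l v w hv hw hm hl hy hx, mul_comm l m,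
      (hπZ w hw (π v)).eq]
  have hle : commutator (D ⧸ P) ≤ Subgroup.centralizer {π s} := by
    rw [commutator_def, Subgroup.commutator_le]
    intro X _ Y _
    obtain ⟨x, rfl⟩ := QuotientGroup.mk'_surjective P X
    obtain ⟨y, rfl⟩ := QuotientGroup.mk'_surjective P Y
    change ⁅π x, π y⁆ ∈ _
    rw [Subgroup.mem_centralizer_singleton_iff, commutatorElement_def]
    have h1 := hcomm x⁻¹ y⁻¹
    simp only [map_mul, map_inv, mul_inv_rev, inv_inv] at h1
    have h2 : π x * π y * (π x)⁻¹ * (π y)⁻¹ * π s =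
        π x * π y * ((π x)⁻¹ * (π y)⁻¹ * π s * (π y * π x)) * (π x)⁻¹ * (π y)⁻¹ := by group
    rw [h2, h1]
    group
  obtain ⟨w, hw, hcw⟩ := h5
  have h6 : π (c * w) ∈ commutator (D ⧸ P) := by
    have h7 : (commutator D).map π ≤ commutator (D ⧸ P) := by
      rw [commutator_def, Subgroup.map_commutator, commutator_def]
      exact Subgroup.commutator_mono le_top le_top
    exact h7 ⟨_, hcw, rfl⟩
  have h8 := Subgroup.mem_centralizer_singleton_iff.1 (hle h6)
  rw [map_mul] at h8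
  have h9 : π c * π s = π s * π c := by
    have h10 : Commute (π w) (π s) := hπZ w hw _
    have h11 : Commute (π s) (π w) := h10.symm
    have h12 : π c * π s * π w = π s * π c * π w := by
      calc π c * π s * π w = π c * (π s * π w) := mul_assoc _ _ _
        _ = π c * π w * π s := by rw [h11.eq, mul_assoc]
        _ = π s * π c * π w := by rw [h8, mul_assoc]
    exact mul_right_cancel h12
  rw [← map_mul, hcs, map_mul, map_mul] at h9
  have h13 : π z = 1 := mul_eq_left.1 h9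
  rw [← MonoidHom.mem_ker, QuotientGroup.ker_mk'] at h13
  obtain ⟨a, v, hv, hzv⟩ := h13
  have h14 : t ^ a ∈ Z := by
    have : t ^ a = z * (v ^ p)⁻¹ := by rw [hzv]; group
    rw [this]
    exact Z.mul_mem hzZ (Z.inv_mem (Z.pow_mem hv p))
  rw [htpow] at h14
  obtain ⟨b, hb⟩ := h4 _ h14
  have h15 : t ^ a = 1 := by
    rw [htpow, hb, zpow_mul, zpow_natCast, hc, one_zpow]
  rw [h15, one_mul] at hzv
  exact hzp v hv hzv

end

end Pool.Agent.K7.H86.PD
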