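import Pool.Agent.K7.H86.PD.Ctr

/-!
# Perfect groups with centre and without outer automorphisms
-/

set_option autoImplicit false

open scoped commutatorElement

namespace Pool.Agent.K7.H86.PD

section

variable {K : Type} [Group K]

theorem no_integral (hin : ∀ φ : MulAut K, ∃ g : K, φ = MulAut.conj g)
    {H : Type} [Group H] (ι : K →* H) (c s : H) (hι : Function.Injective ι)
    (hcomm : commutator H = ι.range)
    (hgen : ∀ h : H, ∃ (k : K) (a b : ℤ), h = ι k * c ^ a * s ^ b)
    (hck : ∀ k, Commute c (ι k)) (hsk : ∀ k, Commute s (ι k)) (z : K)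
    (hz : z ∈ Subgroup.center K) {p q r : ℕ} (hp : p.Prime) (hq0 : 0 < q)
    (hq : ∀ w ∈ Subgroup.center K, w ^ q = 1) (hcs : c * s = s * c * ι z)
    (hs : s ^ (2 * q) = ι z) (hc : c ^ ((2 * q) * (2 * q) ^ 2) = 1)
    (h4 : ∀ a : ℤ, c ^ a ∈ ι.range → (((2 * q) * (2 * q) ^ 2 : ℕ) : ℤ) ∣ a)
    (hzp : ∀ w ∈ Subgroup.center K, z ≠ w ^ p) (hzr : z ^ (p ^ r) = 1)
    {L : Type} [Group L] (e : commutator L ≃* H) : False := by
  let j : H →* L := (commutator L).subtype.comp e.symm.toMonoidHom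
  have hj : Function.Injective j := Subtype.coe_injective.comp e.symm.injective
  have hjr : j.range = commutator L := by
    ext x
    constructor
    · rintro ⟨h, rfl⟩
      exact (e.symm h).2
    · intro hx
      exact ⟨e ⟨x, hx⟩, by simp [j]⟩
  let i : K →* L := j.comp ι
  have hi : Function.Injective i := hj.comp hι
  have hir : i.range = ⁅commutator L, commutator L⁆ := by
    have h1 : i.range = ι.range.map j := by rw [MonoidHom.range_comp]
    rw [h1, ← hcomm, commutator_def, Subgroup.map_commutator, ← MonoidHom.range_eq_map, hjr]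
  haveI hin' : i.range.Normal := by
    rw [hir]
    infer_instance
  have hiconj : ∀ x : L, ∃ g : K, ∀ k : K, x * i k * x⁻¹ = i (g * k * g⁻¹) := by
    intro x
    obtain ⟨g, hg⟩ := hin ((MulAut.congr (MonoidHom.ofInjective hi).symm)
      (MulAut.conjNormal (H := i.range) x))
    refine ⟨g, fun k => ?_⟩
    have h1 : (MulAut.congr (MonoidHom.ofInjective hi).symm)
        (MulAut.conjNormal (H := i.range) x) k = g * k * g⁻¹ := by
      rw [hg]
      rfl
    rw [← h1]
    have h2 : (MonoidHom.ofInjective hi) ((MulAut.congr (MonoidHom.ofInjective hi).symm)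
        (MulAut.conjNormal (H := i.range) x) k) =
        MulAut.conjNormal (H := i.range) x (MonoidHom.ofInjective hi k) := by
      simp [MulAut.congr]
    have h3 := congrArg Subtype.val h2
    simp only [MonoidHom.ofInjective_apply, MulAut.conjNormal_apply] at h3
    exact h3.symm
  let D : Subgroup L := Subgroup.centralizer (i.range : Set L)
  have hD : ∀ x : L, x ∈ D ↔ ∀ k : K, i k * x = x * i k := by
    intro x
    rw [Subgroup.mem_centralizer_iff]
    constructor
    · intro h k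
      exact h _ ⟨k, rfl⟩
    · rintro h _ ⟨k, rfl⟩
      exact h k
  have hfact : ∀ x : L, ∃ g : K, (i g)⁻¹ * x ∈ D := by
    intro x
    obtain ⟨g, hg⟩ := hiconj x
    refine ⟨g, (hD _).2 fun k => ?_⟩
    have h1 : x * i k = i (g * k * g⁻¹) * x := by rw [← hg]; group
    rw [mul_assoc (i g)⁻¹, h1, map_mul, map_mul, map_inv]
    group
  have hcom : ∀ (k : K) (d : D), Commute (i k) (D.subtype d) := fun k d => (hD d).1 d.2 k
  let f : K × D →* L := MonoidHom.noncommCoprod i D.subtype hcom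
  have hf : Function.Surjective f := by
    intro x
    obtain ⟨g, hg⟩ := hfact x
    refine ⟨(g, ⟨_, hg⟩), ?_⟩
    simp [f]
  have hLf : commutator L = (commutator (K × D)).map f := by
    rw [commutator_def, commutator_def, Subgroup.map_commutator, ← MonoidHom.range_eq_map,
      MonoidHom.range_eq_top.2 hf]
  have hcen : ∀ k : K, i k ∈ D → k ∈ Subgroup.center K := by
    intro k hk
    rw [Subgroup.mem_center_iff]
    intro g
    apply hi
    rw [map_mul, map_mul]
    exact (hD _).1 hk g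
  have hcD : j c ∈ D := (hD _).2 fun k => by
    change j (ι k) * j c = j c * j (ι k)
    rw [← map_mul, ← map_mul, (hck k).eq]
  have hsD : j s ∈ D := (hD _).2 fun k => by
    change j (ι k) * j s = j s * j (ι k)
    rw [← map_mul, ← map_mul, (hsk k).eq]
  have hzD : i z ∈ D := (hD _).2 fun k => by
    rw [← map_mul, ← map_mul, Subgroup.mem_center_iff.1 hz k]
  let Z : Subgroup D := ((Subgroup.center K).map i).comap D.subtype
  have hZmem : ∀ d : D, d ∈ Z ↔ ∃ w ∈ Subgroup.center K, i w = d := fun d => Iff.rfl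
  have hgenD : ∀ y : D, (y : L) ∈ commutator L → ∃ a b : ℤ, ∃ w ∈ Z,
      y = (⟨j c, hcD⟩ : D) ^ a * (⟨j s, hsD⟩ : D) ^ b * w := by
    intro y hy
    rw [← hjr] at hy
    obtain ⟨h, hh⟩ := hy
    obtain ⟨k, a, b, hk⟩ := hgen h
    have h1 : (y : L) = j c ^ a * j s ^ b * i k := by
      have h2 : Commute (ι k) (c ^ a * s ^ b) :=
        (((hck k).zpow_left a).mul_left ((hsk k).zpow_left b)).symm
      rw [← hh, hk, mul_assoc, h2.eq, map_mul, map_mul, map_zpow, map_zpow]
      rfl
    let w : D := ((⟨j c, hcD⟩ : D) ^ a * (⟨j s, hsD⟩ : D) ^ b)⁻¹ * y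
    have hw : (w : L) = i k := by
      simp only [w, Subgroup.coe_mul, Subgroup.coe_inv, Subgroup.coe_zpow, h1]
      group
    refine ⟨a, b, w, (hZmem w).2 ⟨k, hcen k (hw ▸ w.2), hw.symm⟩, ?_⟩
    simp only [w]
    group
  have hLn : (commutator L).Normal := inferInstance
  refine obstruction (D := D) Z ?_ (c := ⟨j c, hcD⟩) (s := ⟨j s, hsD⟩) (z := ⟨i z, hzD⟩)
    (p := p) (q := q) (r := r) hp hq0 ⟨z, hz, rfl⟩ ?_ ?_ ?_ ?_ ?_ ?_ ?_ ?_ ?_ ?_
  · rintro w hw x
    obtain ⟨k, hk, hkw⟩ := (hZmem w).1 hw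
    apply Subtype.ext
    rw [Subgroup.coe_mul, Subgroup.coe_mul, ← hkw]
    exact (hD _).1 x.2 k
  · intro w hw
    obtain ⟨k, hk, hkw⟩ := (hZmem w).1 hw
    apply Subtype.ext
    rw [Subgroup.coe_pow, ← hkw, ← map_pow, hq k hk, map_one]
    rfl
  · apply Subtype.ext
    change j c * j s = j s * j c * j (ι z)
    rw [← map_mul, ← map_mul, ← map_mul, hcs]
  · apply Subtype.ext
    change (j s) ^ (2 * q) = j (ι z)
    rw [← map_pow, hs]
  · apply Subtype.ext
    change (j c) ^ ((2 * q) * (2 * q) ^ 2) = 1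
    rw [← map_pow, hc, map_one]
  · intro x
    apply hgenD
    exact hLn.conj_mem _ (by rw [← hjr]; exact ⟨s, rfl⟩) _
  · intro x
    apply hgenD
    exact hLn.conj_mem _ (by rw [← hjr]; exact ⟨c, rfl⟩) _
  · intro a ha
    obtain ⟨k, hk, hkw⟩ := (hZmem _).1 ha
    apply h4
    refine ⟨k, hj ?_⟩
    rw [Subgroup.coe_zpow] at hkw
    rw [map_zpow]
    exact hkw
  · intro w hw h
    obtain ⟨k, hk, hkw⟩ := (hZmem w).1 hw
    apply hzp k hk
    apply hi
    rw [map_pow, hkw, ← Subgroup.coe_pow, ← h]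
  · apply Subtype.ext
    change (i z) ^ (p ^ r) = 1
    rw [← map_pow, hzr, map_one]
  · have h1 : j c ∈ commutator L := by rw [← hjr]; exact ⟨c, rfl⟩
    rw [hLf] at h1
    obtain ⟨⟨k, d⟩, hkd, hy⟩ := h1
    have hd : d ∈ commutator D := by
      have h2 : (commutator (K × D)).map (MonoidHom.snd K D) ≤ commutator D := by
        rw [commutator_def, Subgroup.map_commutator, commutator_def]
        exact Subgroup.commutator_mono le_top le_top
      exact h2 ⟨_, hkd, rfl⟩
    have hy' : i k * (d : L) = j c := by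
      rw [← hy]
      simp [f]
    let w : D := (⟨j c, hcD⟩ : D)⁻¹ * d
    have hw : (w : L) = i k⁻¹ := by
      have h3 : i k * (d : L) = d * i k := (hD d).1 d.2 k
      simp only [w, Subgroup.coe_mul, Subgroup.coe_inv]
      rw [← hy', h3, map_inv]
      group
    refine ⟨w, (hZmem w).2 ⟨k⁻¹, hcen _ (hw ▸ w.2), hw.symm⟩, ?_⟩
    have h4' : (⟨j c, hcD⟩ : D) * w = d := by
      simp only [w]
      group
    rw [h4']
    exact hd

/-- A central element which is not a `p`-th power. -/
theorem exists_nonpower [Finite K] (hZ : Subgroup.center K ≠ ⊥) :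
    ∃ (p r : ℕ) (z : Subgroup.center K), p.Prime ∧ (z : K) ^ (p ^ r) = 1 ∧
      ∀ w ∈ Subgroup.center K, (z : K) ≠ w ^ p := by
  have hcard : Nat.card (Subgroup.center K) ≠ 1 := by
    intro h
    exact hZ (Subgroup.card_eq_one.1 h)
  obtain ⟨p, hp, hpd⟩ := Nat.exists_prime_and_dvd hcard
  haveI : Fact p.Prime := ⟨hp⟩
  obtain ⟨x, hx⟩ := exists_prime_orderOf_dvd_card' p hpd
  have hns : ¬ Function.Surjective (fun w : Subgroup.center K => w ^ p) := by
    intro h
    have h1 := Finite.injective_iff_surjective.2 h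
    have h2 : x = 1 := by
      apply h1
      simp only [one_pow]
      rw [← hx, pow_orderOf_eq_one]
    rw [h2, orderOf_one] at hx
    exact hp.one_lt.ne hx
  rw [Function.Surjective] at hns
  push Not at hns
  obtain ⟨y, hy⟩ := hns
  obtain ⟨r, t, ht, hrt⟩ := Nat.exists_eq_pow_mul_and_not_dvd (Nat.card_pos (α := Subgroup.center K)).ne'
    p hp.ne_one
  refine ⟨p, r, y ^ t, hp, ?_, ?_⟩
  · rw [← Subgroup.coe_pow, ← pow_mul, mul_comm, ← hrt, pow_card_eq_one']
    rfl
  · intro w hw h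
    have h1 : y ^ t = (⟨w, hw⟩ : Subgroup.center K) ^ p := Subtype.ext h
    have hcop : Nat.Coprime p t := (Nat.Prime.coprime_iff_not_dvd hp).2 ht
    have h2 := Nat.gcd_eq_gcd_ab p t
    rw [hcop.gcd_eq_one] at h2
    have hab : ∀ a b : Subgroup.center K, Commute a b := fun a b =>
      Subtype.ext (Subgroup.mem_center_iff.1 b.2 a)
    apply hy (y ^ (Nat.gcdA p t) * (⟨w, hw⟩ : Subgroup.center K) ^ (Nat.gcdB p t))
    change (y ^ (Nat.gcdA p t) * (⟨w, hw⟩ : Subgroup.center K) ^ (Nat.gcdB p t)) ^ p = y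
    rw [(hab _ _).mul_pow, ← zpow_natCast, ← zpow_natCast, ← zpow_mul, ← zpow_mul,
      mul_comm (Nat.gcdB p t), zpow_mul _ (p : ℤ), zpow_natCast _ p, ← h1, ← zpow_natCast y t,
      ← zpow_mul, ← zpow_add, mul_comm (Nat.gcdA p t)]
    have h3 : (p : ℤ) * Nat.gcdA p t + (t : ℤ) * Nat.gcdB p t = 1 := by
      exact_mod_cast h2.symm
    rw [h3, zpow_one]

/-- **Perfect groups with centre and without outer automorphisms.** -/
theorem center_case [Finite K] (hK : commutator K = ⊤)
    (hin : ∀ φ : MulAut K, ∃ g : K, φ = MulAut.conj g) (hZ : Subgroup.center K ≠ ⊥) :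
    ∃ (H : Type) (_ : Group H), Finite H ∧ Nonempty (commutator H ≃* K) ∧
      ∀ (L : Type) [Group L], (commutator L ≃* H) → False := by
  obtain ⟨p, r, z, hp, hzr, hzp⟩ := exists_nonpower hZ
  have hq0 : 0 < Nat.card (Subgroup.center K) := Nat.card_pos
  have hq : ∀ w ∈ Subgroup.center K, w ^ Nat.card (Subgroup.center K) = 1 := by
    intro w hw
    have := pow_card_eq_one' (x := (⟨w, hw⟩ : Subgroup.center K))
    exact congrArg Subtype.val this
  obtain ⟨H, _, ι, c, s, hfin, hι, hcomm, hgen, hck, hsk, hcs, hs, hc, h4⟩ :=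
    exists_central hK z _ hq0 (hq z z.2)
  refine ⟨H, inferInstance, hfin,
    ⟨((MonoidHom.ofInjective hι).trans (MulEquiv.subgroupCongr hcomm.symm)).symm⟩, fun L _ e => ?_⟩
  exact no_integral hin ι c s hι hcomm hgen hck hsk z z.2 hp hq0 hq hcs hs hc h4 hzp hzr e

end

end Pool.Agent.K7.H86.PD
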