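import Pool.Agent.K7.H86.PD.Cen

/-!
# A central product
-/

set_option autoImplicit false

open scoped commutatorElement

namespace Pool.Agent.K7.H86.PD

/-- The group generated by `K`, `c` and `s`, where `[c, s] = z` is central. -/
@[ext] structure U (K : Type) [Group K] (z : Subgroup.center K) : Type where
  /-- the component in `K` -/
  k : K
  /-- the exponent of `c` -/
  a : ℤ
  /-- the exponent of `s` -/
  b : ℤ

section

variable {K : Type} [Group K] {z : Subgroup.center K}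

theorem zc (z : Subgroup.center K) (n : ℤ) (g : K) : (z : K) ^ n * g = g * (z : K) ^ n := by
  have : Commute (z : K) g := (Subgroup.mem_center_iff.1 z.2 g).symm
  exact (this.zpow_left n).eq

instance : Mul (U K z) := ⟨fun x y => ⟨x.k * y.k * (z : K) ^ (x.a * y.b), x.a + y.a, x.b + y.b⟩⟩
instance : One (U K z) := ⟨⟨1, 0, 0⟩⟩
instance : Inv (U K z) := ⟨fun x => ⟨x.k⁻¹ * (z : K) ^ (x.a * x.b), -x.a, -x.b⟩⟩

theorem mul_k (x y : U K z) : (x * y).k = x.k * y.k * (z : K) ^ (x.a * y.b) := rfl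
theorem mul_a (x y : U K z) : (x * y).a = x.a + y.a := rfl
theorem mul_b (x y : U K z) : (x * y).b = x.b + y.b := rfl
theorem one_k : (1 : U K z).k = 1 := rfl
theorem one_a : (1 : U K z).a = 0 := rfl
theorem one_b : (1 : U K z).b = 0 := rfl
theorem inv_k (x : U K z) : (x⁻¹).k = x.k⁻¹ * (z : K) ^ (x.a * x.b) := rfl
theorem inv_a (x : U K z) : (x⁻¹).a = -x.a := rfl
theorem inv_b (x : U K z) : (x⁻¹).b = -x.b := rfl

instance : Group (U K z) := Group.ofLeftAxioms
  (by
    intro x y w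
    ext
    · simp only [mul_k, mul_a, mul_b]
      have h1 : ∀ (n : ℤ) (g : K), (z : K) ^ n * g = g * (z : K) ^ n := zc z
      calc x.k * y.k * (z : K) ^ (x.a * y.b) * w.k * (z : K) ^ ((x.a + y.a) * w.b)
          = x.k * y.k * ((z : K) ^ (x.a * y.b) * w.k) * (z : K) ^ ((x.a + y.a) * w.b) := by group
        _ = x.k * y.k * w.k * ((z : K) ^ (x.a * y.b) * (z : K) ^ ((x.a + y.a) * w.b)) := by
          rw [h1]; group
        _ = x.k * y.k * w.k * ((z : K) ^ (y.a * w.b) * (z : K) ^ (x.a * (y.b + w.b))) := by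
          rw [← zpow_add, ← zpow_add]; congr 2; ring
        _ = x.k * (y.k * w.k * (z : K) ^ (y.a * w.b)) * (z : K) ^ (x.a * (y.b + w.b)) := by group
    · simp only [mul_a]; ring
    · simp only [mul_b]; ring)
  (by
    intro x
    ext
    · simp [mul_k, one_k, one_a]
    · simp [mul_a, one_a]
    · simp [mul_b, one_b])
  (by
    intro x
    ext
    · simp only [mul_k, inv_k, inv_a, one_k]
      rw [mul_assoc x.k⁻¹, zc, ← mul_assoc, inv_mul_cancel, one_mul, ← zpow_add]
      have : x.a * x.b + -x.a * x.b = 0 := by ring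
      rw [this, zpow_zero]
    · simp [mul_a, inv_a, one_a]
    · simp [mul_b, inv_b, one_b])

/-- The relations `c ^ M = 1` and `s ^ N = z`. -/
def R (z : Subgroup.center K) (M N : ℤ) (hM : (z : K) ^ M = 1) : Subgroup (U K z) where
  carrier := {x | ∃ u v : ℤ, x = ⟨(z : K) ^ (-v), M * u, N * v⟩}
  one_mem' := ⟨0, 0, by ext <;> simp [one_k, one_a, one_b]⟩
  mul_mem' := by
    rintro _ _ ⟨u, v, rfl⟩ ⟨u', v', rfl⟩
    refine ⟨u + u', v + v', ?_⟩
    ext
    · simp only [mul_k]
      rw [mul_assoc M, zpow_mul _ M, hM, one_zpow, mul_one, ← zpow_add]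
      congr 1
      ring
    · simp only [mul_a]; ring
    · simp only [mul_b]; ring
  inv_mem' := by
    rintro _ ⟨u, v, rfl⟩
    refine ⟨-u, -v, ?_⟩
    ext
    · simp only [inv_k]
      rw [mul_assoc M, zpow_mul _ M, hM, one_zpow, mul_one, ← zpow_neg]
    · simp only [inv_a]; ring
    · simp only [inv_b]; ring

theorem R_normal (z : Subgroup.center K) (M N : ℤ) (hM : (z : K) ^ M = 1) (hN : (z : K) ^ N = 1) :
    (R z M N hM).Normal := by
  constructor
  rintro _ ⟨u, v, rfl⟩ x
  refine ⟨u, v, ?_⟩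
  rw [mul_inv_eq_iff_eq_mul]
  ext
  · simp only [mul_k]
    rw [zc z (-v), mul_left_comm x.a N, zpow_mul _ N, hN, one_zpow, mul_assoc M, zpow_mul _ M, hM,
      one_zpow]
  · simp only [mul_a]; ring
  · simp only [mul_b]; ring

/-- The projections to the exponents. -/
def pa : U K z →* Multiplicative ℤ where
  toFun x := Multiplicative.ofAdd x.a
  map_one' := rfl
  map_mul' _ _ := rfl

/-- The projections to the exponents. -/
def pb : U K z →* Multiplicative ℤ where
  toFun x := Multiplicative.ofAdd x.b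
  map_one' := rfl
  map_mul' _ _ := rfl

/-- The powers of `c`. -/
def pc : Multiplicative ℤ →* U K z where
  toFun n := ⟨1, n.toAdd, 0⟩
  map_one' := rfl
  map_mul' x y := by ext <;> simp [mul_k, mul_a, mul_b]

/-- The powers of `s`. -/
def ps : Multiplicative ℤ →* U K z where
  toFun n := ⟨1, 0, n.toAdd⟩
  map_one' := rfl
  map_mul' x y := by ext <;> simp [mul_k, mul_a, mul_b]

/-- The inclusion of `K`. -/
def pk : K →* U K z where
  toFun k := ⟨k, 0, 0⟩
  map_one' := rfl
  map_mul' x y := by ext <;> simp [mul_k, mul_a, mul_b]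

theorem pc_zpow (n : ℤ) : (⟨1, 1, 0⟩ : U K z) ^ n = ⟨1, n, 0⟩ := by
  have h := map_zpow (pc (z := z)) (Multiplicative.ofAdd 1) n
  rw [← ofAdd_zsmul] at h
  simpa [pc] using h.symm

theorem ps_zpow (n : ℤ) : (⟨1, 0, 1⟩ : U K z) ^ n = ⟨1, 0, n⟩ := by
  have h := map_zpow (ps (z := z)) (Multiplicative.ofAdd 1) n
  rw [← ofAdd_zsmul] at h
  simpa [ps] using h.symm

/-- **The central product.** -/
theorem exists_central [Finite K] (hK : commutator K = ⊤) (z : Subgroup.center K) (q : ℕ)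
    (hq0 : 0 < q) (hzq : (z : K) ^ q = 1) :
    ∃ (H : Type) (_ : Group H) (ι : K →* H) (c s : H), Finite H ∧ Function.Injective ι ∧
      commutator H = ι.range ∧ (∀ h : H, ∃ (k : K) (a b : ℤ), h = ι k * c ^ a * s ^ b) ∧
      (∀ k, Commute c (ι k)) ∧ (∀ k, Commute s (ι k)) ∧ c * s = s * c * ι z ∧
      s ^ (2 * q) = ι z ∧ c ^ ((2 * q) * (2 * q) ^ 2) = 1 ∧
      ∀ a : ℤ, c ^ a ∈ ι.range → (((2 * q) * (2 * q) ^ 2 : ℕ) : ℤ) ∣ a := by
  set M : ℤ := (((2 * q) * (2 * q) ^ 2 : ℕ) : ℤ) with hMdef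
  set N : ℤ := ((2 * q : ℕ) : ℤ) with hNdef
  have hM : (z : K) ^ M = 1 := by
    rw [hMdef, zpow_natCast]
    have : (2 * q) * (2 * q) ^ 2 = q * (2 * (2 * q) ^ 2) := by ring
    rw [this, pow_mul, hzq, one_pow]
  have hN : (z : K) ^ N = 1 := by
    rw [hNdef, zpow_natCast, mul_comm, pow_mul, hzq, one_pow]
  have hM0 : 0 < M := by
    rw [hMdef]
    positivity
  have hN0 : 0 < N := by
    rw [hNdef]
    positivity
  haveI := R_normal z M N hM hN
  let π : U K z →* U K z ⧸ R z M N hM := QuotientGroup.mk' _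
  have hker : ∀ x : U K z, π x = 1 ↔ x ∈ R z M N hM := by
    intro x
    rw [← MonoidHom.mem_ker, QuotientGroup.ker_mk']
  have hdec : ∀ x : U K z, x = pk (x.k * (z : K) ^ (-(x.a * x.b))) * (⟨1, 1, 0⟩ : U K z) ^ x.a *
      (⟨1, 0, 1⟩ : U K z) ^ x.b := by
    intro x
    rw [pc_zpow, ps_zpow]
    ext
    · simp [mul_k, mul_a, pk, mul_assoc]
    · simp [mul_a, pk]
    · simp [mul_b, pk]
  refine ⟨U K z ⧸ R z M N hM, inferInstance, π.comp pk, π ⟨1, 1, 0⟩, π ⟨1, 0, 1⟩, ?_, ?_, ?_, ?_,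
    ?_, ?_, ?_, ?_, ?_, ?_⟩
  · -- finite
    apply Finite.of_surjective (α := K × Set.Ico (0 : ℤ) M × Set.Ico (0 : ℤ) N)
      (fun x => π ⟨x.1, x.2.1, x.2.2⟩)
    intro y
    obtain ⟨x, rfl⟩ := QuotientGroup.mk'_surjective _ y
    refine ⟨⟨x.k * (z : K) ^ (x.b / N), ⟨x.a % M, Int.emod_nonneg _ hM0.ne', Int.emod_lt_of_pos _ hM0⟩,
      ⟨x.b % N, Int.emod_nonneg _ hN0.ne', Int.emod_lt_of_pos _ hN0⟩⟩, ?_⟩
    change π _ = π x
    rw [← inv_mul_eq_one, ← map_inv, ← map_mul, hker]
    refine ⟨x.a / M, x.b / N, ?_⟩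
    rw [inv_mul_eq_iff_eq_mul]
    have e1 := Int.emod_add_mul_ediv x.a M
    have e2 := Int.emod_add_mul_ediv x.b N
    ext
    · simp only [mul_k]
      rw [mul_left_comm (x.a % M) N, zpow_mul _ N, hN, one_zpow, mul_one, mul_assoc, ← zpow_add]
      simp
    · simp only [mul_a]; linarith
    · simp only [mul_b]; linarith
  · -- injective
    rw [injective_iff_map_eq_one]
    intro k hk
    rw [MonoidHom.comp_apply, hker] at hk
    obtain ⟨u, v, h⟩ := hk
    have h1 : (0 : ℤ) = N * v := congrArg U.b h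
    have h2 : k = (z : K) ^ (-v) := congrArg U.k h
    have h3 : v = 0 := by
      rcases mul_eq_zero.1 h1.symm with h | h
      · exact absurd h hN0.ne'
      · exact h
    rw [h2, h3]
    simp
  · -- commutator
    apply le_antisymm
    · rw [commutator_def, Subgroup.commutator_le]
      intro X _ Y _
      obtain ⟨x, rfl⟩ := QuotientGroup.mk'_surjective _ X
      obtain ⟨y, rfl⟩ := QuotientGroup.mk'_surjective _ Y
      rw [← map_commutatorElement]
      have h1 : pa ⁅x, y⁆ = 1 := by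
        rw [map_commutatorElement, commutatorElement_eq_one_iff_mul_comm, mul_comm]
      have h2 : pb ⁅x, y⁆ = 1 := by
        rw [map_commutatorElement, commutatorElement_eq_one_iff_mul_comm, mul_comm]
      refine ⟨⁅x, y⁆.k, ?_⟩
      change π _ = π _
      congr 1
      ext
      · rfl
      · exact (congrArg Multiplicative.toAdd h1).symm
      · exact (congrArg Multiplicative.toAdd h2).symm
    · have h : (commutator K).map (π.comp pk) ≤ commutator (U K z ⧸ R z M N hM) := by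
        rw [commutator_def, Subgroup.map_commutator, commutator_def]
        exact Subgroup.commutator_mono le_top le_top
      rw [hK, ← MonoidHom.range_eq_map] at h
      exact h
  · intro h
    obtain ⟨x, rfl⟩ := QuotientGroup.mk'_surjective _ h
    refine ⟨x.k * (z : K) ^ (-(x.a * x.b)), x.a, x.b, ?_⟩
    have h := congrArg π (hdec x)
    rw [map_mul, map_mul, map_zpow, map_zpow] at h
    exact h
  · intro k
    change π _ * π _ = π _ * π _
    rw [← map_mul, ← map_mul]
    congr 1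
    ext <;> simp [mul_k, mul_a, mul_b, pk]
  · intro k
    change π _ * π _ = π _ * π _
    rw [← map_mul, ← map_mul]
    congr 1
    ext <;> simp [mul_k, mul_a, mul_b, pk]
  · change π _ * π _ = π _ * π _ * π _
    rw [← map_mul, ← map_mul, ← map_mul]
    congr 1
    ext <;> simp [mul_k, mul_a, mul_b, pk]
  · change _ = π _
    rw [← map_pow, ← zpow_natCast, ps_zpow, ← mul_inv_eq_one, ← map_inv, ← map_mul, hker]
    refine ⟨0, 1, ?_⟩
    ext <;> simp [mul_k, mul_a, mul_b, inv_k, inv_a, inv_b, pk, hNdef]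
  · rw [← map_pow, ← zpow_natCast, pc_zpow, hker]
    refine ⟨1, 0, ?_⟩
    ext <;> simp [hMdef]
  · rintro a ⟨k, hk⟩
    have hk' : π (pk k) = π (⟨1, 1, 0⟩ : U K z) ^ a := hk
    rw [← map_zpow, pc_zpow, ← inv_mul_eq_one, ← map_inv, ← map_mul, hker] at hk'
    obtain ⟨u, v, h⟩ := hk'
    have h1 := congrArg U.a h
    simp only [mul_a, inv_a, pk, MonoidHom.coe_mk, OneHom.coe_mk, neg_zero, zero_add] at h1
    exact ⟨u, h1⟩

end

end Pool.Agent.K7.H86.PD
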