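import Mathlib

/-!
# Groups with cyclic derived subgroup of order `2 ^ e` have elements of order `2 ^ (e + 1)`
-/

set_option autoImplicit false

open scoped commutatorElement

namespace Pool.Agent.K7.H86.PD

section

variable {O : Type} [Group O]

/-- The relations between `a`, `b` and `c`. -/
structure Rel (a b c : O) (α β M : ℤ) : Prop where
  ha : ∀ k : ℤ, c ^ k * a = a * c ^ (α * k)
  hb : ∀ k : ℤ, c ^ k * b = b * c ^ (β * k)
  hba : b * a = a * b * c ^ M

theorem Rel.sq {a b c : O} {α β M : ℤ} (h : Rel a b c α β M) :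
    Rel (a * a) (b * b) c (α * α) (β * β) ((1 + α) * (1 + β) * M) where
  ha k := by rw [← mul_assoc, h.ha, mul_assoc, h.ha, ← mul_assoc, ← mul_assoc]
  hb k := by rw [← mul_assoc, h.hb, mul_assoc, h.hb, ← mul_assoc, ← mul_assoc]
  hba := by
    have h1 : b * b * a = a * (b * b) * c ^ ((1 + β) * M) := by
      calc b * b * a = b * (b * a) := mul_assoc _ _ _
        _ = b * (a * b * c ^ M) := by rw [h.hba]
        _ = (b * a) * (b * c ^ M) := by group
        _ = (a * b * c ^ M) * (b * c ^ M) := by rw [h.hba]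
        _ = a * b * (c ^ M * b) * c ^ M := by group
        _ = a * b * (b * c ^ (β * M)) * c ^ M := by rw [h.hb]
        _ = a * (b * b) * (c ^ (β * M) * c ^ M) := by group
        _ = a * (b * b) * c ^ ((1 + β) * M) := by rw [← zpow_add]; ring_nf
    calc b * b * (a * a) = (b * b * a) * a := by group
      _ = (a * (b * b) * c ^ ((1 + β) * M)) * a := by rw [h1]
      _ = a * (b * b) * (c ^ ((1 + β) * M) * a) := by group
      _ = a * (b * b) * (a * c ^ (α * ((1 + β) * M))) := by rw [h.ha]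
      _ = a * (b * b * a) * c ^ (α * ((1 + β) * M)) := by group
      _ = a * (a * (b * b) * c ^ ((1 + β) * M)) * c ^ (α * ((1 + β) * M)) := by rw [h1]
      _ = (a * a) * (b * b) * (c ^ ((1 + β) * M) * c ^ (α * ((1 + β) * M))) := by group
      _ = a * a * (b * b) * c ^ ((1 + α) * (1 + β) * M) := by rw [← zpow_add]; ring_nf

theorem Rel.sq_mul {a b c : O} {α β M : ℤ} (h : Rel a b c α β M) (H : ℤ) :
    (a * b * c ^ H) * (a * b * c ^ H) =
      (a * a) * (b * b) * c ^ (M * β + H * (1 + α * β)) := by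
  calc (a * b * c ^ H) * (a * b * c ^ H) = a * b * (c ^ H * a) * b * c ^ H := by group
    _ = a * b * (a * c ^ (α * H)) * b * c ^ H := by rw [h.ha]
    _ = a * (b * a) * (c ^ (α * H) * b) * c ^ H := by group
    _ = a * (a * b * c ^ M) * (b * c ^ (β * (α * H))) * c ^ H := by rw [h.hba, h.hb]
    _ = (a * a) * b * (c ^ M * b) * (c ^ (β * (α * H)) * c ^ H) := by group
    _ = (a * a) * b * (b * c ^ (β * M)) * (c ^ (β * (α * H)) * c ^ H) := by rw [h.hb]
    _ = (a * a) * (b * b) * (c ^ (β * M) * (c ^ (β * (α * H)) * c ^ H)) := by group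
    _ = (a * a) * (b * b) * c ^ (M * β + H * (1 + α * β)) := by
      rw [← zpow_add, ← zpow_add]; ring_nf

/-- The powers of `a b`. -/
theorem powers {a b c : O} {α β : ℤ} (h : Rel a b c α β 1) (hα : Odd α) (hβ : Odd β) (j : ℕ) :
    ∃ α' β' M H : ℤ, Rel (a ^ 2 ^ (j + 1)) (b ^ 2 ^ (j + 1)) c (4 * α' + 1) (4 * β' + 1)
      (4 ^ (j + 1) * M) ∧ Odd H ∧
      (a * b) ^ 2 ^ (j + 1) = a ^ 2 ^ (j + 1) * b ^ 2 ^ (j + 1) * c ^ (2 ^ j * H) := by
  induction j with
  | zero =>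
    obtain ⟨x, rfl⟩ := hα
    obtain ⟨y, rfl⟩ := hβ
    refine ⟨x * x + x, y * y + y, (1 + x) * (1 + y), 2 * y + 1, ?_, ⟨y, rfl⟩, ?_⟩
    · have h1 := h.sq
      have e1 : (2 * x + 1) * (2 * x + 1) = 4 * (x * x + x) + 1 := by ring
      have e2 : (2 * y + 1) * (2 * y + 1) = 4 * (y * y + y) + 1 := by ring
      have e3 : (1 + (2 * x + 1)) * (1 + (2 * y + 1)) * 1 = 4 ^ (0 + 1) * ((1 + x) * (1 + y)) := by
        ring
      rw [e1, e2, e3] at h1
      simpa [pow_two] using h1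
    · have h2 := h.sq_mul 0
      simp only [zpow_zero, mul_one, zero_mul, add_zero, one_mul] at h2
      simpa [pow_two] using h2
  | succ j ih =>
    obtain ⟨x, y, M, H, h1, ⟨w, rfl⟩, h2⟩ := ih
    refine ⟨4 * x * x + 2 * x, 4 * y * y + 2 * y, (2 * x + 1) * (2 * y + 1) * M,
      2 ^ (j + 1) * M * (4 * y + 1) + (2 * w + 1) * (8 * x * y + 2 * x + 2 * y + 1), ?_, ?_, ?_⟩
    · have h3 := h1.sq
      have e1 : (4 * x + 1) * (4 * x + 1) = 4 * (4 * x * x + 2 * x) + 1 := by ring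
      have e2 : (4 * y + 1) * (4 * y + 1) = 4 * (4 * y * y + 2 * y) + 1 := by ring
      have e3 : (1 + (4 * x + 1)) * (1 + (4 * y + 1)) * (4 ^ (j + 1) * M) =
          4 ^ (j + 1 + 1) * ((2 * x + 1) * (2 * y + 1) * M) := by ring
      rw [e1, e2, e3] at h3
      have e4 : ∀ z : O, z ^ 2 ^ (j + 1 + 1) = z ^ 2 ^ (j + 1) * z ^ 2 ^ (j + 1) := by
        intro z
        rw [← pow_add]
        ring_nf
      rw [e4, e4]
      exact h3
    · refine ⟨2 ^ j * M * (4 * y + 1) + w * (8 * x * y + 2 * x + 2 * y + 1) + 4 * x * y + x + y, ?_⟩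
      ring
    · have e4 : ∀ z : O, z ^ 2 ^ (j + 1 + 1) = z ^ 2 ^ (j + 1) * z ^ 2 ^ (j + 1) := by
        intro z
        rw [← pow_add]
        ring_nf
      rw [e4, e4, e4, h2, h1.sq_mul]
      congr 2
      have e5 : (4 : ℤ) ^ (j + 1) = 2 ^ (j + 1) * 2 ^ (j + 1) := by
        rw [← mul_pow]
        norm_num
      rw [e5]
      ring

/-- **The key lemma.** -/
theorem key {a b c : O} {α β : ℤ} (h : Rel a b c α β 1) (hα : Odd α) (hβ : Odd β) (e : ℕ)
    (hc : orderOf c = 2 ^ (e + 1)) (hmax : ∀ y : O, (∃ k : ℕ, y ^ 2 ^ k = 1) → y ^ 2 ^ (e + 1) = 1)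
    (h1 : ∃ k : ℕ, a ^ 2 ^ k = 1) (h2 : ∃ k : ℕ, b ^ 2 ^ k = 1) : False := by
  obtain ⟨_, _, _, H, -, hH, h3⟩ := powers h hα hβ e
  rw [hmax a h1, hmax b h2, one_mul, one_mul] at h3
  have hc1 : c ^ (2 ^ (e + 1) : ℕ) = 1 := by rw [← hc]; exact pow_orderOf_eq_one c
  have h4 : (a * b) ^ 2 ^ (e + 1) = 1 := by
    apply hmax
    refine ⟨(e + 1) + (e + 1), ?_⟩
    rw [pow_add, pow_mul, h3, ← zpow_natCast, ← zpow_mul, mul_comm, zpow_mul, zpow_natCast, hc1,
      one_zpow]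
  rw [h4] at h3
  have h5 : ((orderOf c : ℕ) : ℤ) ∣ 2 ^ e * H := orderOf_dvd_iff_zpow_eq_one.2 h3.symm
  rw [hc] at h5
  obtain ⟨w, rfl⟩ := hH
  obtain ⟨v, hv⟩ := h5
  push_cast at hv
  have h6 : (2 : ℤ) ^ e ≠ 0 := by positivity
  have h7 : (2 * w + 1 : ℤ) = 2 * v := by
    apply mul_left_cancel₀ h6
    rw [hv]
    ring
  omega

/-- Odd powers of `a`. -/
theorem pow_a {a b c : O} {α β : ℤ} (h : Rel a b c α β 1) (hα : Odd α) (k : ℕ) :
    ∃ s : ℤ, (Odd k → Odd s) ∧ (Even k → Even s) ∧ b * a ^ k = a ^ k * b * c ^ s := by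
  induction k with
  | zero => exact ⟨0, by decide, fun _ => by decide, by simp⟩
  | succ k ih =>
    obtain ⟨s, h1, h2, h3⟩ := ih
    refine ⟨1 + α * s, ?_, ?_, ?_⟩
    · intro hk
      have hk' : Even k := by
        rcases Nat.even_or_odd k with h | h
        · exact h
        · exact absurd (h.add_one) (Nat.not_even_iff_odd.2 hk)
      exact odd_one.add_even ((h2 hk').mul_left α)
    · intro hk
      have hk' : Odd k := by
        rcases Nat.even_or_odd k with h | h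
        · exact absurd hk (Nat.not_even_iff_odd.2 (h.add_one))
        · exact h
      exact odd_one.add_odd (hα.mul (h1 hk'))
    · calc b * a ^ (k + 1) = b * a ^ k * a := by rw [pow_succ, mul_assoc]
        _ = a ^ k * b * (c ^ s * a) := by rw [h3]; group
        _ = a ^ k * (b * a) * c ^ (α * s) := by rw [h.ha]; group
        _ = a ^ k * (a * b * c ^ (1 : ℤ)) * c ^ (α * s) := by rw [h.hba]
        _ = (a ^ k * a) * b * (c ^ (1 : ℤ) * c ^ (α * s)) := by group
        _ = a ^ (k + 1) * b * c ^ (1 + α * s) := by rw [← zpow_add, ← pow_succ]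

/-- Odd powers of `b`. -/
theorem pow_b {a b c : O} {α β : ℤ} (h : Rel a b c α β 1) (hβ : Odd β) (k : ℕ) :
    ∃ s : ℤ, (Odd k → Odd s) ∧ (Even k → Even s) ∧ b ^ k * a = a * b ^ k * c ^ s := by
  induction k with
  | zero => exact ⟨0, by decide, fun _ => by decide, by simp⟩
  | succ k ih =>
    obtain ⟨s, h1, h2, h3⟩ := ih
    refine ⟨1 + β * s, ?_, ?_, ?_⟩
    · intro hk
      have hk' : Even k := by
        rcases Nat.even_or_odd k with h | h
        · exact h
        · exact absurd (h.add_one) (Nat.not_even_iff_odd.2 hk)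
      exact odd_one.add_even ((h2 hk').mul_left β)
    · intro hk
      have hk' : Odd k := by
        rcases Nat.even_or_odd k with h | h
        · exact absurd hk (Nat.not_even_iff_odd.2 (h.add_one))
        · exact h
      exact odd_one.add_odd (hβ.mul (h1 hk'))
    · have h4 : b ^ (k + 1) * a = a * b ^ (k + 1) * c ^ (β * s + 1) := by
        have h5 := h.hb s
        calc b ^ (k + 1) * a = b ^ k * (b * a) := by rw [pow_succ, mul_assoc]
          _ = b ^ k * a * b * c ^ (1 : ℤ) := by rw [h.hba]; group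
          _ = a * b ^ k * (c ^ s * b) * c ^ (1 : ℤ) := by rw [h3]; group
          _ = a * (b ^ k * b) * (c ^ (β * s) * c ^ (1 : ℤ)) := by rw [h5]; group
          _ = a * b ^ (k + 1) * c ^ (β * s + 1) := by rw [← zpow_add, ← pow_succ]
      rw [h4, add_comm (β * s) 1]

/-- Commutation with powers. -/
theorem comm_pow {a c : O} {α : ℤ} (ha : ∀ k : ℤ, c ^ k * a = a * c ^ (α * k)) (t : ℕ) :
    ∀ k : ℤ, c ^ k * a ^ t = a ^ t * c ^ (α ^ t * k) := by
  induction t with
  | zero => intro k; simp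
  | succ t ih =>
    intro k
    rw [pow_succ, ← mul_assoc, ih, mul_assoc, ha, ← mul_assoc]
    congr 2
    ring

/-- The order of an odd power of an element of order `2 ^ (e + 1)`. -/
theorem order_odd {c : O} {e : ℕ} (hc : orderOf c = 2 ^ (e + 1)) {s : ℤ} (hs : Odd s) :
    orderOf (c ^ s) = 2 ^ (e + 1) := by
  apply orderOf_eq_prime_pow
  · intro h
    rw [← zpow_natCast, ← zpow_mul] at h
    have h5 : ((orderOf c : ℕ) : ℤ) ∣ s * (2 ^ e : ℕ) := orderOf_dvd_iff_zpow_eq_one.2 h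
    rw [hc] at h5
    obtain ⟨w, rfl⟩ := hs
    obtain ⟨v, hv⟩ := h5
    push_cast at hv
    have h6 : (2 : ℤ) ^ e ≠ 0 := by positivity
    have h7 : (2 * w + 1 : ℤ) = 2 * v := by
      apply mul_right_cancel₀ h6
      rw [hv]
      ring
    omega
  · rw [← zpow_natCast, ← zpow_mul, mul_comm, zpow_mul, zpow_natCast, ← hc, pow_orderOf_eq_one,
      one_zpow]

/-- An odd power is a `2`-element. -/
theorem two_part [Finite O] (x : O) : ∃ r : ℕ, Odd r ∧ ∃ k : ℕ, (x ^ r) ^ 2 ^ k = 1 := by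
  obtain ⟨k, r, hr, h⟩ := Nat.exists_eq_two_pow_mul_odd (orderOf_pos x).ne'
  refine ⟨r, hr, k, ?_⟩
  rw [← pow_mul, mul_comm, ← h, pow_orderOf_eq_one]

/-- The key lemma, for arbitrary elements. -/
theorem key' [Finite O] {a b c : O} {α β : ℤ} (h : Rel a b c α β 1) (hα : Odd α) (hβ : Odd β)
    (e : ℕ) (hc : orderOf c = 2 ^ (e + 1))
    (hmax : ∀ y : O, (∃ k : ℕ, y ^ 2 ^ k = 1) → y ^ 2 ^ (e + 1) = 1) : False := by
  obtain ⟨r, hr, hr2⟩ := two_part a
  obtain ⟨t, ht, ht2⟩ := two_part b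
  obtain ⟨s, hs, -, h1⟩ := pow_a h hα r
  have R1 : Rel (a ^ r) b (c ^ s) (α ^ r) β 1 := by
    refine ⟨fun k => ?_, fun k => ?_, ?_⟩
    · rw [← zpow_mul, comm_pow h.ha r, ← zpow_mul]
      congr 2
      ring
    · rw [← zpow_mul, h.hb, ← zpow_mul]
      congr 2
      ring
    · rw [h1, zpow_one]
  obtain ⟨s', hs', -, h2⟩ := pow_b R1 hβ t
  have R2 : Rel (a ^ r) (b ^ t) ((c ^ s) ^ s') (α ^ r) (β ^ t) 1 := by
    refine ⟨fun k => ?_, fun k => ?_, ?_⟩
    · rw [← zpow_mul (c ^ s), R1.ha, ← zpow_mul (c ^ s)]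
      congr 2
      ring
    · rw [← zpow_mul (c ^ s), comm_pow R1.hb t, ← zpow_mul (c ^ s)]
      congr 2
      ring
    · rw [h2, zpow_one]
  exact key R2 hα.pow hβ.pow e (order_odd (order_odd hc (hs hr)) (hs' ht)) hmax hr2 ht2

/-- A cyclic group of order `2 ^ (e + 1)` is not the image of a derived subgroup if `2 ^ (e + 1)` is
the largest order of a `2`-element. -/
theorem no_cyclic [Finite O] {L : Type} [Group L] (X : L →* O) (x : O) (e : ℕ)
    (h0 : orderOf x = 2 ^ (e + 1))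
    (hmax : ∀ y : O, (∃ k : ℕ, y ^ 2 ^ k = 1) → y ^ 2 ^ (e + 1) = 1)
    (hX : (commutator L).map X = Subgroup.zpowers x) : False := by
  have step1 : ∃ u v : L, ∃ m : ℤ, Odd m ∧ X ⁅u, v⁆ = x ^ m := by
    by_contra hcon
    push Not at hcon
    have h1 : commutator L ≤ (Subgroup.zpowers (x ^ (2 : ℤ))).comap X := by
      rw [commutator_def, Subgroup.commutator_le]
      intro u _ v _
      have h2 : X ⁅u, v⁆ ∈ Subgroup.zpowers x := by
        rw [← hX]
        exact ⟨_, Subgroup.commutator_mem_commutator (Subgroup.mem_top u) (Subgroup.mem_top v), rfl⟩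
      obtain ⟨m, hm⟩ := h2
      have hm' : x ^ m = X ⁅u, v⁆ := hm
      have h3 : Even m := by
        rcases Int.even_or_odd m with h | h
        · exact h
        · exact absurd hm'.symm (hcon u v m h)
      obtain ⟨n, rfl⟩ := h3
      refine ⟨n, ?_⟩
      change (x ^ (2 : ℤ)) ^ n = X ⁅u, v⁆
      rw [← hm', ← zpow_mul]
      congr 1
      ring
    have h2 : x ∈ (commutator L).map X := by
      rw [hX]
      exact Subgroup.mem_zpowers x
    obtain ⟨l, hl, hlx⟩ := h2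
    obtain ⟨t, ht⟩ := h1 hl
    have ht' : (x ^ (2 : ℤ)) ^ t = x := by
      rw [hlx] at ht
      exact ht
    have h3 : x ^ (2 * t - 1) = 1 := by
      rw [zpow_sub, zpow_mul, ht', zpow_one, mul_inv_cancel]
    have h4 : ((orderOf x : ℕ) : ℤ) ∣ 2 * t - 1 := orderOf_dvd_iff_zpow_eq_one.2 h3
    rw [h0] at h4
    obtain ⟨v, hv⟩ := h4
    push_cast at hv
    have h5 : 2 * t - 1 = 2 * (2 ^ e * v) := by rw [hv]; ring
    omega
  obtain ⟨u, v, m, hm, hc⟩ := step1
  set c := X ⁅u, v⁆ with hcdef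
  have hco : orderOf c = 2 ^ (e + 1) := by rw [hc]; exact order_odd h0 hm
  have hz : Subgroup.zpowers c = Subgroup.zpowers x := by
    apply Subgroup.eq_of_le_of_card_ge
    · rw [Subgroup.zpowers_le, hc]
      exact ⟨m, rfl⟩
    · rw [Nat.card_zpowers, Nat.card_zpowers, hco, h0]
  have hconj : ∀ w : L, ∃ α : ℤ, Odd α ∧ ∀ k : ℤ, c ^ k * (X w)⁻¹ = (X w)⁻¹ * c ^ (α * k) := by
    intro w
    have h1 : X w * c * (X w)⁻¹ ∈ Subgroup.zpowers c := by
      rw [hz, ← hX]
      refine ⟨w * ⁅u, v⁆ * w⁻¹, ?_, by simp [hcdef]⟩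
      exact (inferInstance : (commutator L).Normal).conj_mem _
        (Subgroup.commutator_mem_commutator (Subgroup.mem_top u) (Subgroup.mem_top v)) w
    obtain ⟨α, hα⟩ := h1
    have hα' : c ^ α = X w * c * (X w)⁻¹ := hα
    refine ⟨α, ?_, fun k => ?_⟩
    · rcases Int.even_or_odd α with h | h
      · exfalso
        obtain ⟨n, rfl⟩ := h
        have h2 : (X w * c * (X w)⁻¹) ^ (2 ^ e) = 1 := by
          rw [← hα', ← zpow_natCast, ← zpow_mul]
          have : (n + n) * ((2 ^ e : ℕ) : ℤ) = ((2 ^ (e + 1) : ℕ) : ℤ) * n := by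
            push_cast
            ring
          rw [this, zpow_mul, zpow_natCast, ← hco, pow_orderOf_eq_one, one_zpow]
        rw [conj_pow, conj_eq_one_iff] at h2
        have h3 := orderOf_dvd_of_pow_eq_one h2
        rw [hco] at h3
        have h4 := Nat.le_of_dvd (by positivity) h3
        have h5 : 2 ^ e < 2 ^ (e + 1) := Nat.pow_lt_pow_right (by norm_num) (Nat.lt_succ_self e)
        omega
      · exact h
    · rw [zpow_mul, hα', conj_zpow]
      group
  obtain ⟨α, hα, hα'⟩ := hconj v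
  obtain ⟨β, hβ, hβ'⟩ := hconj u
  have R : Rel (X v)⁻¹ (X u)⁻¹ c α β 1 := by
    refine ⟨hα', hβ', ?_⟩
    rw [hcdef, map_commutatorElement, commutatorElement_def, zpow_one]
    group
  exact key' R hα hβ e hco hmax

/-- A group of even order has a `2`-element of the largest order. -/
theorem exists_max [Finite O] (hO : 2 ∣ Nat.card O) : ∃ (x : O) (e : ℕ), orderOf x = 2 ^ (e + 1) ∧
    ∀ y : O, (∃ k : ℕ, y ^ 2 ^ k = 1) → y ^ 2 ^ (e + 1) = 1 := by
  classical
  haveI : Fact (Nat.Prime 2) := ⟨Nat.prime_two⟩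
  obtain ⟨y, hy⟩ := exists_prime_orderOf_dvd_card' 2 hO
  obtain ⟨x, ⟨k, hk⟩, hx⟩ := Set.exists_max_image {x : O | ∃ k : ℕ, x ^ 2 ^ k = 1} orderOf
    (Set.toFinite _) ⟨1, 0, by simp⟩
  have hpow : ∀ z : O, (∃ k : ℕ, z ^ 2 ^ k = 1) → ∃ j : ℕ, orderOf z = 2 ^ j := by
    rintro z ⟨k, hk⟩
    obtain ⟨j, -, hj⟩ := (Nat.dvd_prime_pow Nat.prime_two).1 (orderOf_dvd_of_pow_eq_one hk)
    exact ⟨j, hj⟩
  obtain ⟨j, hj⟩ := hpow x ⟨k, hk⟩
  have h1 : orderOf y ≤ orderOf x := hx y ⟨1, by rw [← hy]; simpa using pow_orderOf_eq_one y⟩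
  rw [hy, hj] at h1
  have hj0 : j ≠ 0 := by
    rintro rfl
    norm_num at h1
  obtain ⟨e, rfl⟩ := Nat.exists_eq_succ_of_ne_zero hj0
  refine ⟨x, e, hj, fun z hz => ?_⟩
  obtain ⟨i, hi⟩ := hpow z hz
  have h2 := hx z hz
  rw [hi, hj] at h2
  have h3 : i ≤ e + 1 := (Nat.pow_le_pow_iff_right (by norm_num)).1 h2
  apply orderOf_dvd_iff_pow_eq_one.1
  rw [hi]
  exact pow_dvd_pow 2 h3

end

end Pool.Agent.K7.H86.PD
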