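import Pool.Agent.K7.H86.PD.Main
import Pool.Agent.K7.H86.PD.Cyc

/-!
# Property (D) for the finite groups with perfect derived subgroup: outer automorphisms
-/

set_option autoImplicit false

open scoped commutatorElement

namespace Pool.Agent.K7.H86.PD

section

variable {K : Type} [Group K] (g : MulAut K)

/-- An integral of the extension of `K` by `g` acts on `K`. -/
theorem act (hK : commutator K = ⊤) (L : Type) [Group L] (e : commutator L ≃* Ext g) :
    ∃ Φ : L →* MulAut K, ∀ (k : K) (z : Subgroup.zpowers g),
      Φ (e.symm (SemidirectProduct.inl k * SemidirectProduct.inr z) : commutator L) =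
        MulAut.conj k * z := by
  let Φ : L →* MulAut K :=
    (MulAut.congr (isoExt g hK).symm).toMonoidHom.comp
      ((restr (commutator (Ext g))).comp
        ((MulAut.congr e).toMonoidHom.comp (MulAut.conjNormal (H := commutator L))))
  refine ⟨Φ, fun k z => ?_⟩
  set t : Ext g := SemidirectProduct.inl k * SemidirectProduct.inr z with ht
  let l : commutator L := e.symm t
  change Φ (l : L) = _
  ext x
  apply (isoExt g hK).injective
  apply Subtype.ext
  have h2 : (isoExt g hK) (Φ (l : L) x) =
      restr (commutator (Ext g)) ((MulAut.congr e) (MulAut.conjNormal (l : L)))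
        (isoExt g hK x) := by
    simp [Φ, MulAut.congr]
  rw [h2, restr_apply, isoExt_coe, isoExt_coe]
  have h3 : ∀ y : commutator L, MulAut.conjNormal (l : L) y = l * y * l⁻¹ := by
    intro y
    apply Subtype.ext
    simp
  have h4 : (MulAut.congr e) (MulAut.conjNormal (l : L)) (SemidirectProduct.inl x : Ext g) =
      e (MulAut.conjNormal (l : L) (e.symm (SemidirectProduct.inl x))) := by
    simp [MulAut.congr]
  rw [h4, h3]
  simp only [map_mul, map_inv, MulEquiv.apply_symm_apply, l]
  rw [ht, mul_inv_rev]
  have h5 : (SemidirectProduct.inr z : Ext g) * SemidirectProduct.inl x *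
      (SemidirectProduct.inr z)⁻¹ = SemidirectProduct.inl ((z : MulAut K) x) := by
    rw [← map_inv, ← SemidirectProduct.inl_aut]
    rfl
  calc (SemidirectProduct.inl k : Ext g) * SemidirectProduct.inr z * SemidirectProduct.inl x *
        ((SemidirectProduct.inr z)⁻¹ * (SemidirectProduct.inl k)⁻¹)
      = SemidirectProduct.inl k * (SemidirectProduct.inr z * SemidirectProduct.inl x *
        (SemidirectProduct.inr z)⁻¹) * (SemidirectProduct.inl k)⁻¹ := by group
    _ = SemidirectProduct.inl ((MulAut.conj k * (z : MulAut K)) x) := by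
      rw [h5, ← map_inv, ← map_mul, ← map_mul]
      rfl

instance normalInn : (MulAut.conj : K →* MulAut K).range.Normal where
  conj_mem := by
    rintro _ ⟨k, rfl⟩ φ
    refine ⟨φ k, ?_⟩
    ext x
    simp

theorem finiteAut [Finite K] : Finite (MulAut K) :=
  Finite.of_injective (fun f : MulAut K => (f : K → K)) fun a b h => by
    ext x
    exact congrFun h x

/-- The case of an outer automorphism group of even order. -/
theorem even_case [Finite K] (hK : commutator K = ⊤)
    (h : 2 ∣ (MulAut.conj : K →* MulAut K).range.index) :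
    ∃ g : MulAut K, ∀ (L : Type) [Group L], (commutator L ≃* Ext g) → False := by
  haveI : Finite (MulAut K) := finiteAut
  obtain ⟨x, e, hx, hmax⟩ :=
    exists_max (O := MulAut K ⧸ (MulAut.conj : K →* MulAut K).range) h
  obtain ⟨g, rfl⟩ := QuotientGroup.mk'_surjective _ x
  refine ⟨g, fun L _ E => ?_⟩
  obtain ⟨Φ, hΦ⟩ := act g hK L E
  refine no_cyclic ((QuotientGroup.mk' (MulAut.conj : K →* MulAut K).range).comp Φ) _ e hx hmax ?_
  have hmk : ∀ (k : K) (z : Subgroup.zpowers g),
      QuotientGroup.mk' (MulAut.conj : K →* MulAut K).range (MulAut.conj k * z) =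
        QuotientGroup.mk' (MulAut.conj : K →* MulAut K).range z := by
    intro k z
    rw [map_mul]
    have : QuotientGroup.mk' (MulAut.conj : K →* MulAut K).range (MulAut.conj k) = 1 := by
      rw [← MonoidHom.mem_ker, QuotientGroup.ker_mk']
      exact ⟨k, rfl⟩
    rw [this, one_mul]
  apply le_antisymm
  · rintro _ ⟨l, hl, rfl⟩
    have h1 := hΦ (E ⟨l, hl⟩).left (E ⟨l, hl⟩).right
    rw [SemidirectProduct.inl_left_mul_inr_right, MulEquiv.symm_apply_apply] at h1
    rw [MonoidHom.comp_apply, h1, hmk]
    obtain ⟨n, hn⟩ := (E ⟨l, hl⟩).right.2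
    exact ⟨n, by rw [← hn, map_zpow]⟩
  · rw [Subgroup.zpowers_le]
    have h1 := hΦ 1 ⟨g, Subgroup.mem_zpowers g⟩
    refine ⟨_, (E.symm (SemidirectProduct.inl 1 *
      SemidirectProduct.inr ⟨g, Subgroup.mem_zpowers g⟩) : commutator L).2, ?_⟩
    rw [MonoidHom.comp_apply, h1, hmk]

end

end Pool.Agent.K7.H86.PD
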