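import Mathlib

/-!
# Property (D) for the finite groups with perfect derived subgroup
-/

set_option autoImplicit false

namespace Pool.Agent.K7.H86.PD

/-- Restriction of the automorphisms to a characteristic subgroup. -/
def restr {H : Type} [Group H] (N : Subgroup H) [hN : N.Characteristic] :
    MulAut H →* MulAut N where
  toFun f := (f.subgroupMap N).trans
    (MulEquiv.subgroupCongr (Subgroup.characteristic_iff_map_eq.1 hN f))
  map_one' := by
    ext x
    rfl
  map_mul' f g := by
    ext x
    rfl

theorem restr_apply {H : Type} [Group H] (N : Subgroup H) [N.Characteristic] (f : MulAut H)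
    (x : N) : ((restr N f x : N) : H) = f x := rfl

section

variable {K : Type} [Group K] (g : MulAut K)

/-- The extension of `K` by the automorphism `g`. -/
abbrev Ext := K ⋊[(Subgroup.zpowers g).subtype] (Subgroup.zpowers g)

theorem comm_ext (hK : commutator K = ⊤) :
    commutator (Ext g) = (SemidirectProduct.inl : K →* Ext g).range := by
  apply le_antisymm
  · rw [SemidirectProduct.range_inl_eq_ker_rightHom, commutator_def, Subgroup.commutator_le]
    intro x _ y _
    rw [MonoidHom.mem_ker, map_commutatorElement, commutatorElement_eq_one_iff_mul_comm]
    exact mul_comm' _ _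
  · have h : (commutator K).map (SemidirectProduct.inl : K →* Ext g) ≤ commutator (Ext g) := by
      rw [commutator_def, Subgroup.map_commutator, commutator_def]
      exact Subgroup.commutator_mono le_top le_top
    rw [hK, ← MonoidHom.range_eq_map] at h
    exact h

/-- `K` is the derived subgroup of the extension. -/
noncomputable def isoExt (hK : commutator K = ⊤) : K ≃* commutator (Ext g) :=
  (MonoidHom.ofInjective (SemidirectProduct.inl_injective :
    Function.Injective (SemidirectProduct.inl : K →* Ext g))).trans
    (MulEquiv.subgroupCongr (comm_ext g hK).symm)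

theorem isoExt_coe (hK : commutator K = ⊤) (k : K) :
    ((isoExt g hK k : commutator (Ext g)) : Ext g) = SemidirectProduct.inl k := rfl

theorem not_int (hK : commutator K = ⊤) (hg : g ∉ commutator (MulAut K)) (L : Type) [Group L]
    (e : commutator L ≃* Ext g) : False := by
  let Φ : L →* MulAut K :=
    (MulAut.congr (isoExt g hK).symm).toMonoidHom.comp
      ((restr (commutator (Ext g))).comp
        ((MulAut.congr e).toMonoidHom.comp (MulAut.conjNormal (H := commutator L))))
  let t : Ext g := SemidirectProduct.inr ⟨g, Subgroup.mem_zpowers g⟩
  let l : commutator L := e.symm t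
  have h1 : Φ (l : L) = g := by
    ext k
    apply (isoExt g hK).injective
    apply Subtype.ext
    have h2 : (isoExt g hK) (Φ (l : L) k) =
        restr (commutator (Ext g)) ((MulAut.congr e) (MulAut.conjNormal (l : L)))
          (isoExt g hK k) := by
      simp [Φ, MulAut.congr]
    rw [h2, restr_apply, isoExt_coe, isoExt_coe]
    have h3 : ∀ x : commutator L, MulAut.conjNormal (l : L) x = l * x * l⁻¹ := by
      intro x
      apply Subtype.ext
      simp
    have h4 : (MulAut.congr e) (MulAut.conjNormal (l : L)) (SemidirectProduct.inl k : Ext g) =
        e (MulAut.conjNormal (l : L) (e.symm (SemidirectProduct.inl k))) := by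
      simp [MulAut.congr]
    rw [h4, h3]
    simp only [map_mul, map_inv, MulEquiv.apply_symm_apply, l, t]
    rw [← map_inv, ← SemidirectProduct.inl_aut]
    rfl
  apply hg
  rw [← h1]
  have h5 : (commutator L).map Φ ≤ commutator (MulAut K) := by
    rw [commutator_def, Subgroup.map_commutator, commutator_def]
    exact Subgroup.commutator_mono le_top le_top
  exact h5 ⟨_, l.2, rfl⟩

end

end Pool.Agent.K7.H86.PD
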